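import Mathlib
import Pool.Agent.Helper35.HSF.StE

/-! Project HSF, module ALQ: algebraic invariants. -/

set_option autoImplicit false

namespace Pool.Agent.Helper24.HSF

open Helper35.HSF Helper35.PI Helper35.PI2
open scoped BigOperators
open Finset

/-- Kronecker symbol -/
private def dd {n : ℕ} (i j : Fin n) : ℝ := if i = j then 1 else 0

private lemma dd_sq {n : ℕ} (i j : Fin n) : dd i j ^ 2 = dd i j := by
  unfold dd; split_ifs <;> norm_num

private lemma pr4 {n : ℕ} (f g : Fin n → Fin n → ℝ) :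
    ∑ i, ∑ j, ∑ k, ∑ l, f i j * g k l = (∑ i, ∑ j, f i j) * (∑ i, ∑ j, g i j) := by
  simp only [← Finset.mul_sum, ← Finset.sum_mul]

private lemma s_dd {n : ℕ} : ∑ i : Fin n, ∑ j : Fin n, dd i j = n := by
  simp [dd]

private lemma s_Kd {n : ℕ} (K : Fin n → Fin n → ℝ) :
    ∑ i : Fin n, ∑ j : Fin n, K i j * dd i j = ∑ i, K i i := by
  simp [dd]

theorem hALQ : StALQ := by
  intro n N K ν x r H A hK hν hνx hr hx hA hH
  have hνν : (inner ℝ ν ν : ℝ) = 1 := by rw [real_inner_self_eq_norm_sq, hν]; norm_num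
  have hxx : (inner ℝ x x : ℝ) = 1 / r := by rw [real_inner_self_eq_norm_sq, hx]
  have hxν : (inner ℝ x ν : ℝ) = 0 := by rw [real_inner_comm]; exact hνx
  have hA' : ∀ i j, A i j = K i j • ν - (r * dd i j) • x := by
    intro i j
    rw [hA]
    simp only [dd]
    split_ifs <;> simp
  have hG : ∀ i j k l, (inner ℝ (A i j) (A k l) : ℝ) = K i j * K k l + r * (dd i j * dd k l) := by
    intro i j k l
    rw [hA', hA']
    simp only [inner_sub_left, inner_sub_right, inner_smul_left, inner_smul_right, hνν, hνx, hxν,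
      hxx]
    simp only [conj_trivial]
    field_simp
    ring
  have hHv : Hv A = H • ν - (n * r) • x := by
    unfold Hv
    rw [hH, Finset.sum_smul]
    simp only [hA', Finset.sum_sub_distrib, dd, if_true, mul_one, Finset.sum_const,
      Finset.card_univ, Fintype.card_fin]
    rw [← Nat.cast_smul_eq_nsmul ℝ, smul_smul]
  have hzz : ∀ i j, zz A i j = H * K i j + n * r * dd i j := by
    intro i j
    unfold zz
    rw [hHv, hA']
    simp only [inner_sub_left, inner_sub_right, inner_smul_left, inner_smul_right, hνν, hνx, hxν,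
      hxx]
    simp only [conj_trivial]
    field_simp
    ring
  have sKd := s_Kd K
  rw [← hH] at sKd
  have sdd := s_dd (n := n)
  have sKK : ∑ i, ∑ j, K i j * K j i = ∑ i, ∑ j, K i j ^ 2 :=
    Finset.sum_congr rfl fun i _ => Finset.sum_congr rfl fun j _ => by rw [hK j i]; ring
  refine ⟨?_, hHv, ?_, ?_, ?_, ?_⟩
  · unfold XX
    have e : ∀ i j, ‖A i j‖ ^ 2 = K i j ^ 2 + r * dd i j := by
      intro i j
      rw [← real_inner_self_eq_norm_sq, hG]
      have := dd_sq i j
      rw [← pow_two, ← pow_two, this]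
    simp only [e, Finset.sum_add_distrib, ← Finset.mul_sum, sdd]
    ring
  · unfold YY
    rw [hHv, ← real_inner_self_eq_norm_sq]
    simp only [inner_sub_left, inner_sub_right, inner_smul_left, inner_smul_right, hνν, hνx, hxν,
      hxx]
    simp only [conj_trivial]
    field_simp
    ring
  · unfold ZZ
    have e : ∀ i j, zz A i j ^ 2
        = H ^ 2 * K i j ^ 2 + 2 * H * (n * r) * (K i j * dd i j) + (n * r) ^ 2 * dd i j := by
      intro i j
      rw [hzz]
      have := dd_sq i j
      linear_combination (n * r) ^ 2 * this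
    simp only [e, Finset.sum_add_distrib, ← Finset.mul_sum, sdd, sKd]
    ring
  · unfold Sq
    have e : ∀ i j k l, (inner ℝ (A i j) (A k l) : ℝ) ^ 2
        + 2 * ((inner ℝ (A i j) (A j k) : ℝ) * inner ℝ (A k l) (A l i)
          - inner ℝ (A i j) (A k l) * inner ℝ (A j k) (A l i))
        = (K i j ^ 2) * (K k l ^ 2) + 2 * r * ((K i j * dd i j) * (K k l * dd k l))
          + r ^ 2 * (dd i j * dd k l)
          + 2 * r * (K i j * K j k * dd k l * dd l i + dd i j * dd j k * (K k l * K l i)
            - K i j * K k l * dd j k * dd l i - dd i j * dd k l * (K j k * K l i)) := by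
      intro i j k l
      simp only [hG]
      have h1 := dd_sq i j
      have h2 := dd_sq k l
      linear_combination r ^ 2 * dd k l ^ 2 * h1 + r ^ 2 * dd i j * h2
    have t1 : ∑ i : Fin n, ∑ j : Fin n, ∑ k : Fin n, ∑ l : Fin n, K i j * K j k * dd k l * dd l i
        = ∑ i, ∑ j, K i j ^ 2 := by
      rw [← sKK]
      simp [dd]
    have t2 : ∑ i : Fin n, ∑ j : Fin n, ∑ k : Fin n, ∑ l : Fin n, dd i j * dd j k * (K k l * K l i)
        = ∑ i, ∑ j, K i j ^ 2 := by
      rw [← sKK]
      simp [dd]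
    have t3 : ∑ i : Fin n, ∑ j : Fin n, ∑ k : Fin n, ∑ l : Fin n, K i j * K k l * dd j k * dd l i
        = ∑ i, ∑ j, K i j ^ 2 := by
      rw [← sKK]
      simp [dd]
    have t4 : ∑ i : Fin n, ∑ j : Fin n, ∑ k : Fin n, ∑ l : Fin n, dd i j * dd k l * (K j k * K l i)
        = ∑ i, ∑ j, K i j ^ 2 := by
      rw [← sKK]
      simp [dd]
    simp only [e]
    simp only [Finset.sum_add_distrib, Finset.sum_sub_distrib, ← Finset.mul_sum (a := 2 * r),
      ← Finset.mul_sum (a := r ^ 2)]
    rw [t1, t2, t3, t4, pr4, pr4, pr4, sKd, sdd]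
    ring
  · unfold AAH
    have e : ∀ k l m, (inner ℝ (A k l) (A k m) : ℝ) * zz A m l
        = H * (K k l * K k m * K m l) + n * r * (K k l * K k m * dd m l)
          + r * H * (dd k l * dd k m * K m l) + n * r ^ 2 * (dd k l * dd k m * dd m l) := by
      intro k l m
      rw [hG, hzz]
      ring
    have t1 : ∑ k : Fin n, ∑ l : Fin n, ∑ m : Fin n, K k l * K k m * K m l
        = ∑ i, ∑ j, ∑ k, K i j * K j k * K k i := by
      refine Finset.sum_congr rfl fun i _ => Finset.sum_congr rfl fun j _ =>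
        Finset.sum_congr rfl fun k _ => ?_
      rw [hK k j, hK i k]; ring
    have t2 : ∑ k : Fin n, ∑ l : Fin n, ∑ m : Fin n, K k l * K k m * dd m l
        = ∑ i, ∑ j, K i j ^ 2 := by
      simp [dd, pow_two]
    have t3 : ∑ k : Fin n, ∑ l : Fin n, ∑ m : Fin n, dd k l * dd k m * K m l = H := by
      rw [hH]
      simp [dd]
    have t4 : ∑ k : Fin n, ∑ l : Fin n, ∑ m : Fin n, dd k l * dd k m * dd m l = (n : ℝ) := by
      simp [dd]
    simp only [e]
    simp only [Finset.sum_add_distrib, ← Finset.mul_sum (a := H), ← Finset.mul_sum (a := n * r),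
      ← Finset.mul_sum (a := r * H), ← Finset.mul_sum (a := n * r ^ 2)]
    rw [t1, t2, t3, t4]
    ring

end Pool.Agent.Helper24.HSF
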