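import Mathlib
import Pool.Agent.Helper35.HSF.StA

/-! Project HSF, module ASP: the support property. -/

set_option autoImplicit false

namespace Pool.Agent.Helper24.HSF

open Helper35.HSF Helper35.PI
open scoped ContDiff Manifold Topology ENNReal BigOperators
open MeasureTheory Set Filter

private lemma smc {n N : ℕ} {M : Type} [TopologicalSpace M] [ChartedSpace (EE n) M]
    [IsManifold (𝓡 n) ∞ M] (g : M → EE N) (hg : ContMDiff (𝓡 n) 𝓘(ℝ, EE N) ∞ g) (p : M) (y : EE n)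
    (hy : y ∈ (chartAt (EE n) p).target) :
    ContDiffAt ℝ ∞ (fun y => g ((chartAt (EE n) p).symm y)) y := by
  have h1 : ContMDiffOn (𝓡 n) (𝓡 n) ∞ (chartAt (EE n) p).symm (chartAt (EE n) p).target :=
    contMDiffOn_chart_symm
  have h2 : ContMDiffOn (𝓡 n) 𝓘(ℝ, EE N) ∞ (g ∘ (chartAt (EE n) p).symm)
      (chartAt (EE n) p).target := hg.comp_contMDiffOn h1
  have h3 : ContDiffOn ℝ ∞ (g ∘ (chartAt (EE n) p).symm) (chartAt (EE n) p).target :=
    contMDiffOn_iff_contDiffOn.1 h2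
  exact h3.contDiffAt ((chartAt (EE n) p).open_target.mem_nhds hy)

/-- second derivative test, first step: uniform positivity near the point -/
private lemma unif {n : ℕ} (φ : EE n → ℝ) (x : EE n) (h : ContDiffAt ℝ 2 φ x)
    (h2 : ∀ v : EE n, v ≠ 0 → 0 < fderiv ℝ (fun y => fderiv ℝ φ y v) x v) :
    ∃ r > 0, ∀ y ∈ Metric.ball x r, DifferentiableAt ℝ φ y ∧
      ∀ v : EE n, DifferentiableAt ℝ (fun y => fderiv ℝ φ y v) y ∧
        (v ≠ 0 → 0 < fderiv ℝ (fun y => fderiv ℝ φ y v) y v) := by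
  have hev : ∀ᶠ y in 𝓝 x, ContDiffAt ℝ 2 φ y := h.eventually (by simp)
  have hd2 : ∀ y, ContDiffAt ℝ 2 φ y → ContDiffAt ℝ 1 (fderiv ℝ φ) y := fun y hy =>
    hy.fderiv_right (by norm_num)
  have hap : ∀ y, ContDiffAt ℝ 2 φ y → ∀ v w : EE n, HasFDerivAt (fun y => fderiv ℝ φ y v)
      ((ContinuousLinearMap.apply ℝ ℝ v).comp (fderiv ℝ (fderiv ℝ φ) y)) y := by
    intro y hy v w
    have := ((hd2 y hy).differentiableAt (by norm_num)).hasFDerivAt
    exact (ContinuousLinearMap.apply ℝ ℝ v).hasFDerivAt.comp y this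
  have hval : ∀ y, ContDiffAt ℝ 2 φ y → ∀ v : EE n,
      fderiv ℝ (fun y => fderiv ℝ φ y v) y v = fderiv ℝ (fderiv ℝ φ) y v v := by
    intro y hy v
    rw [(hap y hy v v).fderiv]; rfl
  have hcont : ContinuousAt (fderiv ℝ (fderiv ℝ φ)) x := by
    have : ContDiffAt ℝ 0 (fderiv ℝ (fderiv ℝ φ)) x := (hd2 x h).fderiv_right (by norm_num)
    exact this.continuousAt
  set Q := fderiv ℝ (fderiv ℝ φ) x with hQ
  obtain ⟨δ, hδ, hδ'⟩ : ∃ δ > 0, ∀ v : EE n, ‖v‖ = 1 → δ ≤ Q v v := by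
    rcases (Metric.sphere (0 : EE n) 1).eq_empty_or_nonempty with he | he
    · refine ⟨1, one_pos, fun v hv => ?_⟩
      have : v ∈ Metric.sphere (0 : EE n) 1 := by simpa using hv
      rw [he] at this; exact this.elim
    · obtain ⟨v₀, hv₀, hmin⟩ := (isCompact_sphere (0 : EE n) 1).exists_isMinOn he
        (f := fun v => Q v v) (by fun_prop)
      refine ⟨Q v₀ v₀, ?_, fun v hv => hmin (by simpa using hv)⟩
      have : v₀ ≠ 0 := by
        rintro rfl
        simp at hv₀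
      have := h2 v₀ this
      rwa [hval x h] at this
  have hc2 : ∀ᶠ y in 𝓝 x, ‖fderiv ℝ (fderiv ℝ φ) y - Q‖ < δ / 2 := by
    have h3 := hcont.sub (continuousAt_const (y := Q))
    have h4 : ContinuousAt (fun y => ‖fderiv ℝ (fderiv ℝ φ) y - Q‖) x :=
      ContinuousAt.norm (E := EE n →L[ℝ] EE n →L[ℝ] ℝ) h3
    have h5 : (fun y => ‖fderiv ℝ (fderiv ℝ φ) y - Q‖) x < δ / 2 := by
      simp only [hQ, sub_self]
      exact (norm_zero (E := EE n →L[ℝ] EE n →L[ℝ] ℝ)).trans_lt (by positivity)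
    exact h4.eventually (Iio_mem_nhds h5)
  obtain ⟨r, hr, hr'⟩ := Metric.eventually_nhds_iff_ball.1 (hev.and hc2)
  refine ⟨r, hr, fun y hy => ?_⟩
  obtain ⟨hy1, hy2⟩ := hr' y hy
  refine ⟨hy1.differentiableAt (by norm_num), fun v => ⟨(hap y hy1 v v).differentiableAt, ?_⟩⟩
  intro hv
  rw [hval y hy1]
  have hvn : 0 < ‖v‖ := norm_pos_iff.2 hv
  have e1 : δ * ‖v‖ ^ 2 ≤ Q v v := by
    have := hδ' (‖v‖⁻¹ • v) (by rw [norm_smul, norm_inv, norm_norm]; field_simp)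
    simp only [map_smul, smul_apply, smul_eq_mul] at this
    have h3 : Q v v = ‖v‖ ^ 2 * (‖v‖⁻¹ * (‖v‖⁻¹ * Q v v)) := by field_simp
    rw [h3]; nlinarith [sq_nonneg ‖v‖]
  have e2 : |(fderiv ℝ (fderiv ℝ φ) y - Q) v v| ≤ δ / 2 * ‖v‖ ^ 2 := by
    have a1 : ‖(fderiv ℝ (fderiv ℝ φ) y - Q) v v‖ ≤ ‖fderiv ℝ (fderiv ℝ φ) y - Q‖ * ‖v‖ * ‖v‖ :=
      ContinuousLinearMap.le_opNorm₂ _ _ _
    rw [Real.norm_eq_abs] at a1
    nlinarith [sq_nonneg ‖v‖, mul_pos hvn hvn]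
  have e3 : (fderiv ℝ (fderiv ℝ φ) y - Q) v v = fderiv ℝ (fderiv ℝ φ) y v v - Q v v := by
    simp
  rw [e3] at e2
  have := (abs_le.1 e2).1
  nlinarith [mul_pos hδ (mul_pos hvn hvn)]

/-- second derivative test -/
private lemma sdt {n : ℕ} (φ : EE n → ℝ) (x : EE n) (h : ContDiffAt ℝ 2 φ x) (h0 : φ x = 0)
    (h1 : fderiv ℝ φ x = 0)
    (h2 : ∀ v : EE n, v ≠ 0 → 0 < fderiv ℝ (fun y => fderiv ℝ φ y v) x v) :
    ∃ B ∈ 𝓝 x, ∀ y ∈ B, y ≠ x → 0 < φ y := by
  obtain ⟨r, hr, H⟩ := unif φ x h h2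
  refine ⟨Metric.ball x r, Metric.ball_mem_nhds x hr, fun y hy hyx => ?_⟩
  set v := y - x with hv
  have hv0 : v ≠ 0 := sub_ne_zero.2 hyx
  have hin : ∀ s ∈ Icc (0 : ℝ) 1, x + s • v ∈ Metric.ball x r := by
    intro s hs
    rw [Metric.mem_ball, dist_eq_norm] at hy ⊢
    have : x + s • v - x = s • v := by abel
    rw [this, norm_smul, Real.norm_eq_abs, abs_of_nonneg hs.1]
    have : s * ‖v‖ ≤ ‖v‖ := mul_le_of_le_one_left (norm_nonneg _) hs.2
    exact lt_of_le_of_lt this hy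
  have hl : ∀ s : ℝ, HasDerivAt (fun s : ℝ => x + s • v) v s := by
    intro s
    simpa using ((hasDerivAt_id s).smul_const v).const_add x
  have hf1 : ∀ s ∈ Icc (0 : ℝ) 1,
      HasDerivAt (fun s : ℝ => φ (x + s • v)) (fderiv ℝ φ (x + s • v) v) s := fun s hs =>
    (H _ (hin s hs)).1.hasFDerivAt.comp_hasDerivAt s (hl s)
  have hf2 : ∀ s ∈ Icc (0 : ℝ) 1,
      HasDerivAt (fun s : ℝ => fderiv ℝ φ (x + s • v) v)
        (fderiv ℝ (fun y => fderiv ℝ φ y v) (x + s • v) v) s := by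
    intro s hs
    have key := HasFDerivAt.comp_hasDerivAt s ((H _ (hin s hs)).2 v).1.hasFDerivAt (hl s)
    exact key
  have m2 : StrictMonoOn (fun s : ℝ => fderiv ℝ φ (x + s • v) v) (Icc 0 1) := by
    refine strictMonoOn_of_deriv_pos (convex_Icc 0 1)
      (fun s hs => (hf2 s hs).continuousAt.continuousWithinAt) ?_
    intro s hs
    rw [interior_Icc] at hs
    rw [(hf2 s ⟨hs.1.le, hs.2.le⟩).deriv]
    exact ((H _ (hin s ⟨hs.1.le, hs.2.le⟩)).2 v).2 hv0
  have m1 : StrictMonoOn (fun s : ℝ => φ (x + s • v)) (Icc 0 1) := by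
    refine strictMonoOn_of_deriv_pos (convex_Icc 0 1)
      (fun s hs => (hf1 s hs).continuousAt.continuousWithinAt) ?_
    intro s hs
    rw [interior_Icc] at hs
    rw [(hf1 s ⟨hs.1.le, hs.2.le⟩).deriv]
    have := m2 (left_mem_Icc.2 zero_le_one) ⟨hs.1.le, hs.2.le⟩ hs.1
    simpa [h1] using this
  have := m1 (left_mem_Icc.2 zero_le_one) (right_mem_Icc.2 zero_le_one) zero_lt_one
  simpa [h0, hv] using this

private lemma F1 {n N : ℕ} (G : EE n → EE N) (O : Set (EE n)) (hO : IsOpen O)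
    (hG : ∀ y ∈ O, ContDiffAt ℝ ∞ G y) (h1 : ∀ y ∈ O, ‖G y‖ = 1) (y : EE n) (hy : y ∈ O)
    (v : EE n) : (inner ℝ (fderiv ℝ G y v) (G y) : ℝ) = 0 := by
  have hd : DifferentiableAt ℝ G y := (hG y hy).differentiableAt (by simp)
  have e : (fun y => (inner ℝ (G y) (G y) : ℝ)) =ᶠ[𝓝 y] fun _ => 1 := by
    filter_upwards [hO.mem_nhds hy] with z hz
    rw [real_inner_self_eq_norm_sq, h1 z hz]; norm_num
  have e2 := congrArg (fun T : EE n →L[ℝ] ℝ => T v) (Filter.EventuallyEq.fderiv_eq (𝕜 := ℝ) e)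
  simp only [fderiv_fun_const, Pi.zero_apply, zero_apply] at e2
  rw [fderiv_inner_apply ℝ hd hd, real_inner_comm] at e2
  linarith

private lemma F3 {n N : ℕ} (G H : EE n → EE N) (O : Set (EE n)) (hO : IsOpen O)
    (hG : ∀ y ∈ O, ContDiffAt ℝ ∞ G y) (hH : ∀ y ∈ O, ContDiffAt ℝ ∞ H y)
    (h0 : ∀ y ∈ O, ∀ v : EE n, (inner ℝ (fderiv ℝ G y v) (H y) : ℝ) = 0) (y : EE n) (hy : y ∈ O)
    (v : EE n) : (inner ℝ (fderiv ℝ (fun y => fderiv ℝ G y v) y v) (H y) : ℝ)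
      = - inner ℝ (fderiv ℝ G y v) (fderiv ℝ H y v) := by
  have hd1 : DifferentiableAt ℝ H y := (hH y hy).differentiableAt (by simp)
  have hd2 : DifferentiableAt ℝ (fun y => fderiv ℝ G y v) y := by
    have h2' : ContDiffAt ℝ 2 G y := by exact_mod_cast contDiffAt_infty.1 (hG y hy) 2
    have : ContDiffAt ℝ 1 (fderiv ℝ G) y := h2'.fderiv_right (by norm_num)
    exact (this.differentiableAt (by norm_num)).clm_apply (differentiableAt_const v)
  have e : (fun y => (inner ℝ (fderiv ℝ G y v) (H y) : ℝ)) =ᶠ[𝓝 y] fun _ => 0 := by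
    filter_upwards [hO.mem_nhds hy] with z hz
    exact h0 z hz v
  have e2 := congrArg (fun T : EE n →L[ℝ] ℝ => T v) (Filter.EventuallyEq.fderiv_eq (𝕜 := ℝ) e)
  simp only [fderiv_fun_const, Pi.zero_apply, zero_apply] at e2
  rw [fderiv_inner_apply ℝ hd2 hd1] at e2
  linarith

/-- derivatives of `⟨G, a⟩` -/
private lemma F4 {n N : ℕ} (G : EE n → EE N) (O : Set (EE n)) (hO : IsOpen O)
    (hG : ∀ y ∈ O, ContDiffAt ℝ ∞ G y) (a : EE N) (y : EE n) (hy : y ∈ O) (v : EE n) :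
    fderiv ℝ (fun y => (inner ℝ (G y) a : ℝ)) y v = inner ℝ (fderiv ℝ G y v) a ∧
    fderiv ℝ (fun y => fderiv ℝ (fun y => (inner ℝ (G y) a : ℝ)) y v) y v
      = inner ℝ (fderiv ℝ (fun y => fderiv ℝ G y v) y v) a := by
  have h1 : ∀ z ∈ O, fderiv ℝ (fun y => (inner ℝ (G y) a : ℝ)) z v
      = inner ℝ (fderiv ℝ G z v) a := by
    intro z hz
    rw [fderiv_inner_apply ℝ ((hG z hz).differentiableAt (by simp)) (differentiableAt_const a)]
    simp
  refine ⟨h1 y hy, ?_⟩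
  have e : (fun y => fderiv ℝ (fun y => (inner ℝ (G y) a : ℝ)) y v)
      =ᶠ[𝓝 y] fun y => inner ℝ (fderiv ℝ G y v) a := by
    filter_upwards [hO.mem_nhds hy] with z hz
    exact h1 z hz
  rw [e.fderiv_eq]
  have hd2 : DifferentiableAt ℝ (fun y => fderiv ℝ G y v) y := by
    have h2' : ContDiffAt ℝ 2 G y := by exact_mod_cast contDiffAt_infty.1 (hG y hy) 2
    have : ContDiffAt ℝ 1 (fderiv ℝ G) y := h2'.fderiv_right (by norm_num)
    exact (this.differentiableAt (by norm_num)).clm_apply (differentiableAt_const v)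
  rw [fderiv_inner_apply ℝ hd2 (differentiableAt_const a)]
  simp

/-- linear algebra: the normal direction -/
private lemma LA {n : ℕ} (D : EE n →L[ℝ] EE (n + 2)) (u w a : EE (n + 2)) (hu : ‖u‖ = 1)
    (hw : ‖w‖ = 1) (huw : (inner ℝ u w : ℝ) = 0) (hDu : ∀ v, (inner ℝ (D v) u : ℝ) = 0)
    (hDw : ∀ v, (inner ℝ (D v) w : ℝ) = 0) (hD : ∀ v, D v = 0 → v = 0)
    (hau : (inner ℝ u a : ℝ) = 0) (haD : ∀ v, (inner ℝ (D v) a : ℝ) = 0) :
    ∃ b : ℝ, a = b • w := by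
  let T : (ℝ × ℝ × EE n) →ₗ[ℝ] EE (n + 2) :=
    (LinearMap.toSpanSingleton ℝ _ w).coprod
      ((LinearMap.toSpanSingleton ℝ _ u).coprod D.toLinearMap)
  have hT : ∀ α β v, T (α, β, v) = α • w + (β • u + D v) := fun α β v => by
    simp [T]
  have hww : (inner ℝ w w : ℝ) = 1 := by rw [real_inner_self_eq_norm_sq, hw]; norm_num
  have huu : (inner ℝ u u : ℝ) = 1 := by rw [real_inner_self_eq_norm_sq, hu]; norm_num
  have hinj : Function.Injective T := by
    rw [← LinearMap.ker_eq_bot, LinearMap.ker_eq_bot']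
    rintro ⟨α, β, v⟩ h
    rw [hT] at h
    have hα : α = 0 := by
      have := congrArg (fun z => (inner ℝ z w : ℝ)) h
      simp only [inner_add_left, inner_smul_left, hww, huw, hDw, inner_zero_left] at this
      simpa using this
    have hβ : β = 0 := by
      have := congrArg (fun z => (inner ℝ z u : ℝ)) h
      simp only [inner_add_left, inner_smul_left, huu, hDu,
        inner_zero_left] at this
      rw [real_inner_comm, huw] at this
      simpa using this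
    subst hα hβ
    have : D v = 0 := by simpa using h
    rw [hD v this]; rfl
  have hsurj : Function.Surjective T := by
    refine (LinearMap.injective_iff_surjective_of_finrank_eq_finrank ?_).1 hinj
    simp [Module.finrank_prod]
    ring
  obtain ⟨⟨α, β, v⟩, h⟩ := hsurj a
  rw [hT] at h
  have hβ : β = 0 := by
    have := congrArg (fun z => (inner ℝ u z : ℝ)) h
    simp only [inner_add_right, inner_smul_right, huu, huw, hau] at this
    rw [real_inner_comm, hDu] at this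
    simpa using this
  subst hβ
  have hv : D v = 0 := by
    have := congrArg (fun z => (inner ℝ (D v) z : ℝ)) h
    simp only [inner_add_right, inner_smul_right, hDw, hDu, haD] at this
    simpa using this
  exact ⟨α, by rw [← h, hv]; simp⟩


section Main

variable {n : ℕ} {M : Type} [TopologicalSpace M] [ChartedSpace (EE n) M]
  [IsManifold (𝓡 n) ∞ M]

/-- local facts at a point of a chart -/
private lemma loc1 (g η : M → EE (n + 2)) (hg : ContMDiff (𝓡 n) 𝓘(ℝ, EE (n + 2)) ∞ g)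
    (hη : ContMDiff (𝓡 n) 𝓘(ℝ, EE (n + 2)) ∞ η) (g1 : ∀ q, ‖g q‖ = 1)
    (h0 : ∀ p : M, ∀ y ∈ (chartAt (EE n) p).target, ∀ v : EE n,
      (inner ℝ (fderiv ℝ (fun y => g ((chartAt (EE n) p).symm y)) y v)
        (η ((chartAt (EE n) p).symm y)) : ℝ) = 0)
    (h2 : ∀ p : M, ∀ y ∈ (chartAt (EE n) p).target, ∀ v : EE n, v ≠ 0 →
      (inner ℝ (fderiv ℝ (fun y => g ((chartAt (EE n) p).symm y)) y v)
        (fderiv ℝ (fun y => η ((chartAt (EE n) p).symm y)) y v) : ℝ) < 0) (x : M) :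
    let G : EE n → EE (n + 2) := fun y => g ((chartAt (EE n) x).symm y)
    let x₀ : EE n := chartAt (EE n) x x
    (∀ v, (inner ℝ (fderiv ℝ G x₀ v) (g x) : ℝ) = 0) ∧
    (∀ v, (inner ℝ (fderiv ℝ G x₀ v) (η x) : ℝ) = 0) ∧
    (∀ v, v ≠ 0 → 0 < (inner ℝ (fderiv ℝ (fun y => fderiv ℝ G y v) x₀ v) (η x) : ℝ)) ∧
    (∀ v, fderiv ℝ G x₀ v = 0 → v = 0) ∧
    (∀ a : EE (n + 2), ∀ v, fderiv ℝ (fun y => (inner ℝ (G y) a : ℝ)) x₀ v
        = inner ℝ (fderiv ℝ G x₀ v) a ∧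
      fderiv ℝ (fun y => fderiv ℝ (fun y => (inner ℝ (G y) a : ℝ)) y v) x₀ v
        = inner ℝ (fderiv ℝ (fun y => fderiv ℝ G y v) x₀ v) a) ∧
    (∀ a : EE (n + 2), ContDiffAt ℝ 2 (fun y => (inner ℝ (G y) a : ℝ)) x₀) ∧ G x₀ = g x := by
  intro G x₀
  have hx₀ : x₀ ∈ (chartAt (EE n) x).target := mem_chart_target _ x
  have hx1 : (chartAt (EE n) x).symm x₀ = x := (chartAt (EE n) x).left_inv (mem_chart_source _ x)
  have hO := (chartAt (EE n) x).open_target
  have hG : ∀ y ∈ (chartAt (EE n) x).target, ContDiffAt ℝ ∞ G y := fun y hy => smc g hg x y hy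
  have hN : ∀ y ∈ (chartAt (EE n) x).target,
      ContDiffAt ℝ ∞ (fun y => η ((chartAt (EE n) x).symm y)) y := fun y hy => smc η hη x y hy
  have hGx : G x₀ = g x := by simp only [G, hx1]
  have a3 : ∀ v, v ≠ 0 →
      0 < (inner ℝ (fderiv ℝ (fun y => fderiv ℝ G y v) x₀ v) (η x) : ℝ) := by
    intro v hv
    have e1 := F3 G (fun y => η ((chartAt (EE n) x).symm y)) _ hO hG hN (h0 x) x₀ hx₀ v
    simp only [hx1] at e1
    rw [e1]
    have := h2 x x₀ hx₀ v hv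
    linarith
  refine ⟨fun v => ?_, fun v => ?_, a3, fun v hv => ?_, fun a v => F4 G _ hO hG a x₀ hx₀ v,
    fun a => ?_, hGx⟩
  · have := F1 G _ hO hG (fun y _ => g1 _) x₀ hx₀ v
    rwa [hGx] at this
  · have := h0 x x₀ hx₀ v
    rwa [hx1] at this
  · by_contra hv0
    have := h2 x x₀ hx₀ v hv0
    rw [show fderiv ℝ (fun y => g ((chartAt (EE n) x).symm y)) x₀ v = 0 from hv] at this
    simp at this
  · have h2' : ContDiffAt ℝ 2 G x₀ := by exact_mod_cast contDiffAt_infty.1 (hG x₀ hx₀) 2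
    exact h2'.inner ℝ contDiffAt_const

/-- `⟨g, η x⟩` has a strict local minimum `0` at `x` -/
private lemma loc2 (g η : M → EE (n + 2)) (hg : ContMDiff (𝓡 n) 𝓘(ℝ, EE (n + 2)) ∞ g)
    (hη : ContMDiff (𝓡 n) 𝓘(ℝ, EE (n + 2)) ∞ η) (g1 : ∀ q, ‖g q‖ = 1)
    (hgη : ∀ q, (inner ℝ (g q) (η q) : ℝ) = 0)
    (h0 : ∀ p : M, ∀ y ∈ (chartAt (EE n) p).target, ∀ v : EE n,
      (inner ℝ (fderiv ℝ (fun y => g ((chartAt (EE n) p).symm y)) y v)
        (η ((chartAt (EE n) p).symm y)) : ℝ) = 0)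
    (h2 : ∀ p : M, ∀ y ∈ (chartAt (EE n) p).target, ∀ v : EE n, v ≠ 0 →
      (inner ℝ (fderiv ℝ (fun y => g ((chartAt (EE n) p).symm y)) y v)
        (fderiv ℝ (fun y => η ((chartAt (EE n) p).symm y)) y v) : ℝ) < 0) (x : M) :
    ∃ O ∈ 𝓝 x, ∀ y ∈ O, y ≠ x → 0 < (inner ℝ (g y) (η x) : ℝ) := by
  obtain ⟨a1, a2, a3, a4, a5, a6, a7⟩ := loc1 g η hg hη g1 h0 h2 x
  obtain ⟨B, hB, hB'⟩ := sdt (fun y => (inner ℝ (g ((chartAt (EE n) x).symm y)) (η x) : ℝ))
    (chartAt (EE n) x x) (a6 (η x))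
    (by rw [(chartAt (EE n) x).left_inv (mem_chart_source _ x), hgη]) (by
      ext v
      rw [(a5 (η x) v).1, a2 v]; rfl) (by
      intro v hv
      rw [(a5 (η x) v).2]
      exact a3 v hv)
  refine ⟨(chartAt (EE n) x).source ∩ (chartAt (EE n) x) ⁻¹' B, ?_, ?_⟩
  · exact Filter.inter_mem (chart_source_mem_nhds _ x)
      ((chartAt (EE n) x).continuousAt (mem_chart_source _ x) |>.preimage_mem_nhds hB)
  · rintro y ⟨hy1, hy2⟩ hyx
    have := hB' _ hy2 (fun h => hyx ((chartAt (EE n) x).injOn hy1 (mem_chart_source _ x) h))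
    rwa [(chartAt (EE n) x).left_inv hy1] at this

/-- local structure of the zero set -/
private lemma loc3 (hLOC : Helper35.HSF.StLOC) (hn : 2 ≤ n)
    (g η : M → EE (n + 2)) (hg : ContMDiff (𝓡 n) 𝓘(ℝ, EE (n + 2)) ∞ g)
    (hη : ContMDiff (𝓡 n) 𝓘(ℝ, EE (n + 2)) ∞ η) (g1 : ∀ q, ‖g q‖ = 1) (η1 : ∀ q, ‖η q‖ = 1)
    (hgη : ∀ q, (inner ℝ (g q) (η q) : ℝ) = 0)
    (h0 : ∀ p : M, ∀ y ∈ (chartAt (EE n) p).target, ∀ v : EE n,
      (inner ℝ (fderiv ℝ (fun y => g ((chartAt (EE n) p).symm y)) y v)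
        (η ((chartAt (EE n) p).symm y)) : ℝ) = 0)
    (h2 : ∀ p : M, ∀ y ∈ (chartAt (EE n) p).target, ∀ v : EE n, v ≠ 0 →
      (inner ℝ (fderiv ℝ (fun y => g ((chartAt (EE n) p).symm y)) y v)
        (fderiv ℝ (fun y => η ((chartAt (EE n) p).symm y)) y v) : ℝ) < 0)
    (a : EE (n + 2)) (ha : a ≠ 0) : LPr (fun y => (inner ℝ (g y) a : ℝ)) := by
  intro x hx
  obtain ⟨a1, a2, a3, a4, a5, a6, a7⟩ := loc1 g η hg hη g1 h0 h2 x
  set e := chartAt (EE n) x with he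
  have hxs : x ∈ e.source := mem_chart_source _ x
  have hxt : e x ∈ e.target := mem_chart_target _ x
  have hcrit : fderiv ℝ (fun y => (inner ℝ (g (e.symm y)) a : ℝ)) (e x) = 0 →
      (∀ v : EE n, v ≠ 0 → 0 < fderiv ℝ (fun y => fderiv ℝ
        (fun y => (inner ℝ (g (e.symm y)) a : ℝ)) y v) (e x) v) ∨
      (∀ v : EE n, v ≠ 0 → fderiv ℝ (fun y => fderiv ℝ
        (fun y => (inner ℝ (g (e.symm y)) a : ℝ)) y v) (e x) v < 0) := by
    intro hc
    have haD : ∀ v, (inner ℝ (fderiv ℝ (fun y => g (e.symm y)) (e x) v) a : ℝ) = 0 := by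
      intro v
      rw [← (a5 a v).1, hc]; rfl
    obtain ⟨b, hb⟩ := LA (fderiv ℝ (fun y => g (e.symm y)) (e x)) (g x) (η x) a (g1 x) (η1 x)
      (hgη x) a1 a2 a4 hx haD
    have hb0 : b ≠ 0 := by
      rintro rfl
      exact ha (by rw [hb]; simp)
    have hval : ∀ v : EE n, fderiv ℝ (fun y => fderiv ℝ
        (fun y => (inner ℝ (g (e.symm y)) a : ℝ)) y v) (e x) v
        = b * inner ℝ (fderiv ℝ (fun y => fderiv ℝ (fun y => g (e.symm y)) y v) (e x) v)
          (η x) := by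
      intro v
      rw [(a5 a v).2, hb, inner_smul_right]
    rcases lt_or_gt_of_ne hb0 with h | h
    · right
      intro v hv
      rw [hval]
      exact mul_neg_of_neg_of_pos h (a3 v hv)
    · left
      intro v hv
      rw [hval]
      exact mul_pos h (a3 v hv)
  have hφ0 : (inner ℝ (g (e.symm (e x))) a : ℝ) = 0 := by
    rw [e.left_inv hxs]; exact hx
  rcases hLOC n hn (fun y => (inner ℝ (g (e.symm y)) a : ℝ)) (e x) (a6 a) hφ0 hcrit with
    ⟨B, hB, hB'⟩ | hall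
  · left
    refine ⟨e.source ∩ e ⁻¹' B, Filter.inter_mem (e.open_source.mem_nhds hxs)
      ((e.continuousAt hxs).preimage_mem_nhds hB), ?_⟩
    rintro y ⟨hy1, hy2⟩ hyx
    have := hB' _ hy2 (fun h => hyx (e.injOn hy1 hxs h))
    simpa only [e.left_inv hy1] using this
  · right
    intro U hU
    have hU' : e.target ∩ e.symm ⁻¹' U ∈ 𝓝 (e x) := by
      refine Filter.inter_mem (e.open_target.mem_nhds hxt)
        ((e.symm.continuousAt hxt).preimage_mem_nhds ?_)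
      rw [e.left_inv hxs]; exact hU
    obtain ⟨B, hBo, hxB, hBU, hBc, hBcl⟩ := hall _ hU'
    have hBt : B ⊆ e.target := fun y hy => (hBU hy).1
    have himg : e.source ∩ e ⁻¹' B = e.symm '' B := by
      ext y
      constructor
      · rintro ⟨h1, h2⟩
        exact ⟨e y, h2, e.left_inv h1⟩
      · rintro ⟨z, hz, rfl⟩
        exact ⟨e.map_target (hBt hz), by
          show e (e.symm z) ∈ B
          rw [e.right_inv (hBt hz)]; exact hz⟩
    have himgP : ∀ P : ℝ → Prop, e.symm '' B ∩ {y | P (inner ℝ (g y) a : ℝ)}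
        = e.symm '' (B ∩ {y | P (inner ℝ (g (e.symm y)) a : ℝ)}) := by
      intro P
      ext y
      constructor
      · rintro ⟨⟨z, hz, rfl⟩, h2⟩
        exact ⟨z, ⟨hz, h2⟩, rfl⟩
      · rintro ⟨z, ⟨hz, h2⟩, rfl⟩
        exact ⟨⟨z, hz, rfl⟩, h2⟩
    refine ⟨e.symm '' B, ?_, ⟨e x, hxB, e.left_inv hxs⟩, ?_, ?_, ?_⟩
    · rw [← himg]
      exact e.isOpen_inter_preimage hBo
    · rintro y ⟨z, hz, rfl⟩
      exact (hBU hz).2
    · rw [himgP (fun r => 0 < r)]
      refine hBc.image _ (e.symm.continuousOn.mono ?_)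
      intro z hz
      exact hBt hz.1
    · rw [himgP (fun r => 0 < r), himgP (fun r => 0 ≤ r)]
      rintro y ⟨z, hz, rfl⟩
      exact mem_closure_image (e.symm.continuousAt (hBt hz.1)) (hBcl hz)

omit [ChartedSpace (EE n) M] [IsManifold (𝓡 n) ∞ M] in
/-- finite fibres -/
private lemma fib [CompactSpace M] [T2Space M]
    (g η : M → EE (n + 2)) (hgc : Continuous g)
    (hgη : ∀ q, (inner ℝ (g q) (η q) : ℝ) = 0)
    (hO : ∀ x, ∃ O ∈ 𝓝 x, ∀ y ∈ O, y ≠ x → 0 < (inner ℝ (g y) (η x) : ℝ)) (b : EE (n + 2)) :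
    (g ⁻¹' {b}).Finite := by
  have hcpt : IsCompact (g ⁻¹' {b}) := (isClosed_singleton.preimage hgc).isCompact
  choose O hO1 hO2 using hO
  obtain ⟨t, ht1, ht2⟩ := hcpt.elim_nhds_subcover O (fun x _ => hO1 x)
  refine t.finite_toSet.subset fun y hy => ?_
  obtain ⟨x, hx⟩ := mem_iUnion.1 (ht2 hy)
  obtain ⟨hxt, hyx⟩ := mem_iUnion.1 hx
  by_cases h : y = x
  · rw [h]; exact hxt
  · exfalso
    have h1 := hO2 x y hyx h
    have h3 : g y = g x := by
      rw [show g y = b from hy, show g x = b from ht1 x hxt]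
    rw [h3, hgη] at h1
    exact lt_irrefl _ h1

omit [ChartedSpace (EE n) M] [IsManifold (𝓡 n) ∞ M] in
/-- the separation argument -/
private lemma sep [CompactSpace M] [T2Space M]
    (g η : M → EE (n + 2)) (hgc : Continuous g) (g1 : ∀ q, ‖g q‖ = 1)
    (hgη : ∀ q, (inner ℝ (g q) (η q) : ℝ) = 0)
    (hO : ∀ x, ∃ O ∈ 𝓝 x, ∀ y ∈ O, y ≠ x → 0 < (inner ℝ (g y) (η x) : ℝ))
    (hcon : ∀ a : EE (n + 2), IsPreconnected {y | 0 < (inner ℝ (g y) a : ℝ)})
    (x y : M) (hxy : y ≠ x) (ε₀ : ℝ) (hε₀ : 0 < ε₀)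
    (hy : ∀ ε, 0 < ε → ε < ε₀ → 0 < (inner ℝ (g y) (-η x + ε • g x) : ℝ)) : False := by
  obtain ⟨O, hO1, hO2⟩ := hO x
  have hW : O ∩ {y}ᶜ ∈ 𝓝 x := Filter.inter_mem hO1
    (isOpen_compl_singleton.mem_nhds (by simpa using hxy.symm))
  obtain ⟨V, hV1, hV2, hV3⟩ := exists_mem_nhds_isClosed_subset hW
  -- the frontier of the interior
  set V' := interior V with hV'
  have hxV' : x ∈ V' := mem_interior_iff_mem_nhds.2 hV1
  have hcl : closure V' ⊆ V := closure_minimal interior_subset hV2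
  have hfr : IsCompact (frontier V') := isClosed_frontier.isCompact
  have hfneg : ∀ z ∈ frontier V', 0 < (inner ℝ (g z) (η x) : ℝ) := by
    intro z hz
    have hz1 : z ∈ V := hcl (frontier_subset_closure hz)
    have hz2 : z ≠ x := by
      rintro rfl
      rw [frontier, isOpen_interior.interior_eq] at hz
      exact hz.2 hxV'
    exact hO2 z (hV3 hz1).1 hz2
  obtain ⟨δ, hδ, hδ'⟩ : ∃ δ > 0, ∀ z ∈ frontier V', δ ≤ (inner ℝ (g z) (η x) : ℝ) := by
    rcases (frontier V').eq_empty_or_nonempty with hf | hf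
    · exact ⟨1, one_pos, fun z hz => by rw [hf] at hz; exact hz.elim⟩
    · obtain ⟨z₀, hz₀, hmin⟩ := hfr.exists_isMinOn hf
        (f := fun z => (inner ℝ (g z) (η x) : ℝ)) (by fun_prop)
      exact ⟨_, hfneg z₀ hz₀, fun z hz => hmin hz⟩
  set ε := min (ε₀ / 2) (δ / 2) with hε
  have hε1 : 0 < ε := by positivity
  have hε2 : ε < ε₀ := lt_of_le_of_lt (min_le_left _ _) (by linarith)
  have hε3 : ε < δ := lt_of_le_of_lt (min_le_right _ _) (by linarith)
  have hS := hcon (-η x + ε • g x)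
  have hval : ∀ z, (inner ℝ (g z) (-η x + ε • g x) : ℝ)
      = -inner ℝ (g z) (η x) + ε * inner ℝ (g z) (g x) := by
    intro z
    rw [inner_add_right, inner_neg_right, inner_smul_right]
  have hxS : 0 < (inner ℝ (g x) (-η x + ε • g x) : ℝ) := by
    rw [hval, hgη, real_inner_self_eq_norm_sq, g1]
    simpa using hε1
  have hyS := hy ε hε1 hε2
  have hyV : y ∉ closure V' := fun h => (hV3 (hcl h)).2 rfl
  have hdis : ∀ z ∈ frontier V', ¬ 0 < (inner ℝ (g z) (-η x + ε • g x) : ℝ) := by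
    intro z hz h
    rw [hval] at h
    have h1 := hδ' z hz
    have h3 : (inner ℝ (g z) (g x) : ℝ) ≤ 1 := by
      have := real_inner_le_norm (g z) (g x)
      rw [g1, g1] at this; linarith
    nlinarith
  obtain ⟨z, hz1, hz2⟩ := hS V' (closure V')ᶜ isOpen_interior isClosed_closure.isOpen_compl
    (by
      intro z hz
      by_cases h1 : z ∈ closure V'
      · left
        by_contra h3
        exact hdis z ⟨h1, by rw [isOpen_interior.interior_eq]; exact h3⟩ hz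
      · right; exact h1)
    ⟨x, hxS, hxV'⟩ ⟨y, hyS, hyV⟩
  exact hz2.2 (subset_closure hz2.1)

end Main

theorem hASP (hLOC : Helper35.HSF.StLOC) (hACN : Helper35.HSF.StACN) : Helper35.HSF.StASP := by
  intro n hn M _ _ _ _ _ _ g η hg hη g1 η1 hgη h0 h2
  have hgc : Continuous g := hg.continuous
  have hO := loc2 g η hg hη g1 hgη h0 h2
  have hLPr := loc3 hLOC hn g η hg hη g1 η1 hgη h0 h2
  have hcon := hACN n (n + 2) hn M g hgc g1 (fib g η hgc hgη hO) hLPr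
  have hsep := sep g η hgc g1 hgη hO hcon
  refine ⟨fun x y => ?_, fun x y hgxy _ => ?_⟩
  · by_contra hneg
    push Not at hneg
    have hyx : y ≠ x := by
      rintro rfl
      rw [hgη] at hneg
      exact lt_irrefl _ hneg
    refine hsep x y hyx (-(inner ℝ (g y) (η x) : ℝ)) (by linarith) fun ε hε1 hε2 => ?_
    rw [inner_add_right, inner_neg_right, inner_smul_right]
    have h3 : -1 ≤ (inner ℝ (g y) (g x) : ℝ) := by
      have := neg_le_of_abs_le (abs_real_inner_le_norm (g y) (g x))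
      rw [g1, g1] at this; linarith
    nlinarith
  · by_contra hxy
    refine hsep x y (fun h => hxy h.symm) 1 one_pos fun ε hε1 _ => ?_
    rw [inner_add_right, inner_neg_right, inner_smul_right, ← hgxy, hgη,
      real_inner_self_eq_norm_sq, g1]
    simpa using hε1

end Pool.Agent.Helper24.HSF
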